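import Pool.Agent.TH689.QXDnfUpper

/-!
# Randomized convex programs for learning DNF formulas from random examples

The definitions used in the statement (in `Pool/Agent/TH689/QXDnf.lean`,
`Pool/Agent/TH689/QXDefs.lean` and `Pool/Agent/TH689/GXDefs.lean`):

* `Dnf s n`: the DNF formulas with `s` terms over `n` variables, `Dnf.eval F z` is the value of `F`
  at `z`, and `(F j).width` is the number of the literals of the `j`-th term.
* `Wrong Dnf.eval e F`: the formula `F` gives the wrong label to the labelled example `e`.
* `Scheme X 𝒞 a c r D`: the schemes of mixed-integer convex programming relaxations of the problem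
  to find a formula in `X` which agrees with a sample, with `a` binary variables, `c` convex
  constraints of dimension `D` which are common to all samples and `r` such constraints for every
  labelled example in `𝒞`. A constraint says that the value of an affine map to `ℝ ^ D` lies in an
  arbitrary convex set. There are any number of real variables and linear equations. Every
  formula has a vector, about which nothing is assumed.
* `P.CorrectAt Viol F`: the vector of `F` satisfies the common constraints, the constraints
  of the labelled examples with which `F` agrees, and its binary variables are `0` or `1`; so it is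
  a solution of the relaxation of every sample with which `F` agrees.
* `Rejects P Viol y δ`: the relaxation claims, with an error `δ`, that no formula agrees with the
  sample `y`, which is a sequence of `T` labelled examples.
* `rejectRate P Viol T δ`: the fraction of the samples with `T` members which are rejected, which is
  the probability that random examples with random labels are rejected.
-/

set_option autoImplicit false

namespace Pool.Agent.Results.MP_cba12a_lc.ConvexProgramsForDNF

open Pool.Agent.TH689.GX Pool.Agent.TH689.QX

open Classical in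
/-- Let `1 ≤ w ≤ n`, `2 ^ (w - 1) ≤ s`, `T ≥ 1` and `0 < δ < 1`. Let `P ω` be a randomized scheme of
mixed-integer convex programming relaxations for the DNF formulas with `s` terms over `n` variables,
where `ω` has the probability `p ω`, and with `2 ^ a * (c + (r + 1) * T + 1) * (D + 2) ≤ M`. Assume
that it is correct at every formula whose terms have at most `w` literals with probability at least
`1 - η`. Then it rejects `T` random examples with random labels, with the error `δ`, with
probability at most `η + 2 * T ^ 3 * M / (⌊n / w⌋ ^ w * δ ^ 2)`.

Conversely, for all `n`, `w` and `s` there is a scheme with at most `(2 * n + 1) ^ w` linear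
inequalities and one more for every labelled example, which is correct at every DNF formula with `s`
terms with at most `w` literals each and rejects `T` random examples with random labels, with every
error `δ < 1 / (T * s + 1)`, with probability at least
`1 - ((2 * n + 1) ^ w + 1) * (1 - 1 / 2 ^ (w + 1)) ^ T`. -/
theorem result :
    (∀ n w s T : ℕ, 1 ≤ w → w ≤ n → 2 ^ (w - 1) ≤ s → 1 ≤ T → ∀ δ : ℝ, 0 < δ → δ < 1 →
      ∀ (Ω : Type) [Fintype Ω] (p : Ω → ℝ), (∀ ω, 0 ≤ p ω) → ∑ ω, p ω = 1 →
      ∀ (a c r D : Ω → ℕ) (M : ℝ),
        (∀ ω, (2 : ℝ) ^ a ω * (c ω + (r ω + 1) * T + 1) * (D ω + 2) ≤ M) →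
      ∀ (P : ∀ ω, Scheme (Dnf s n) ((Fin n → Bool) × Bool) (a ω) (c ω) (r ω) (D ω)) (η : ℝ),
        (∀ F : Dnf s n, (∀ j, (F j).width ≤ w) →
          ∑ ω with ¬ (P ω).CorrectAt (Wrong Dnf.eval) F, p ω ≤ η) →
        ∑ ω, p ω * rejectRate (P ω) (Wrong Dnf.eval) T δ
          ≤ η + 2 * T ^ 3 * M / (((n / w : ℕ) : ℝ) ^ w * δ ^ 2)) ∧
    ∀ n w s : ℕ, ∃ S : ℕ, S ≤ (2 * n + 1) ^ w ∧
      ∃ P : Scheme (Dnf s n) ((Fin n → Bool) × Bool) 0 S 1 1,
        (∀ F : Dnf s n, (∀ j, (F j).width ≤ w) → P.CorrectAt (Wrong Dnf.eval) F) ∧
        ∀ (T : ℕ) (δ : ℝ), 0 ≤ δ → δ * (T * s + 1) < 1 →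
          1 - ((2 * n + 1) ^ w + 1) * (1 - (1 / 2) ^ (w + 1)) ^ T
            ≤ rejectRate P (Wrong Dnf.eval) T δ := by
  refine ⟨?_, dnf_upper⟩
  intro n w s T hw hwn hs hT δ hδ0 hδ1 Ω _ p hp hp1 a c r D M hM P η hη
  exact dnf_lower n w s T hw hwn hs hT δ hδ0 hδ1 Ω p hp hp1 a c r D M hM P η hη

end Pool.Agent.Results.MP_cba12a_lc.ConvexProgramsForDNF
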