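import Pool.Agent.TH735.RF.Asym
import Pool.Agent.TH735.RF.Par

/-!
# DNF formulas are not learnable from examples of which only few attributes are inspected

`RandLearner n N₀ T r O`: a randomized learner of unlimited power which gets `N₀` labelled uniform
examples completely, and then the labels of `T` further uniform examples, of each of which it
inspects at most `r` of the `n` attributes, chosen adaptively. Its output here is a hypothesis, an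
arbitrary Boolean function on the cube.
-/

set_option autoImplicit false

namespace Pool.Agent.Results.MP_cba12a_lc.FocusedLearners

open Finset Filter Topology Pool.Agent.TH735.RF

theorem hard_target (n k r T N₀ : ℕ) (hk1 : 1 ≤ k) (hkn : k ≤ n) (ε : ℝ) (hε0 : 0 < ε)
    (R : RandLearner n N₀ T r (Pt n → Bool)) :
    ∃ f : Pt n → Bool, IsDNF (2 ^ (k - 1) + 1) f ∧
      R.prob f (fun h => err f h ≤ 1 / 2 - ε) ≤
        (2 : ℝ) ^ N₀ * ((⌊1 / (4 * ε ^ 2)⌋₊ : ℝ) + T * ((r ^ k : ℕ) : ℝ)) /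
          (((n / k) ^ k : ℕ) : ℝ) := by
  classical
  have hb : 0 < n / k := Nat.div_pos hkn (by omega)
  have hkb : k * (n / k) ≤ n := Nat.mul_div_le n k
  have _ : Nonempty (Fin (n / k)) := ⟨⟨0, hb⟩⟩
  have hbal : Balanced (k - 1) (par (k := k)) := by
    rcases balanced_par (k := k) with h | h
    · exact h
    · omega
  obtain ⟨s, hs⟩ := exists_hard R (fun s : Fin k → Fin (n / k) => tgt hkb par s)
    (fun s h => err (tgt hkb par s) h ≤ 1 / 2 - ε) ⌊1 / (4 * ε ^ 2)⌋₊ (r ^ k)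
    (by
      intro h
      rw [Nat.card_eq_fintype_card, Fintype.card_subtype]
      have h1 := bessel hkb h ε hε0.le
        (univ.filter fun s : Fin k → Fin (n / k) => err (tgt hkb par s) h ≤ 1 / 2 - ε)
        (fun s hs => (mem_filter.1 hs).2)
      apply Nat.le_floor
      rw [le_div_iff₀ (by positivity)]
      linarith)
    (by
      intro Q hQ
      have h1 := card_not_half hkb (k - 1) r par hbal Q hQ
      rw [Nat.sub_add_cancel hk1, Nat.choose_self, Nat.sub_self, pow_zero, mul_one, one_mul] at h1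
      exact h1)
  refine ⟨tgt hkb par s, dnf_par hkb hk1 s, ?_⟩
  have h2 : (Fintype.card (Fin k → Fin (n / k)) : ℝ) = (((n / k) ^ k : ℕ) : ℝ) := by
    rw [Fintype.card_fun, Fintype.card_fin, Fintype.card_fin]
  rw [h2] at hs
  exact hs

theorem part_one (δ : ℝ) (hδ : 0 < δ) (hδ2 : δ ≤ 1 / 2) :
    ∃ n₀ : ℕ, ∀ n : ℕ, n₀ ≤ n → ∀ k r T N₀ : ℕ,
      1 ≤ k → (k : ℝ) ≤ (n : ℝ) ^ (δ / 4) → (r : ℝ) ≤ (n : ℝ) ^ (1 - δ) →
      (T : ℝ) ≤ (n : ℝ) ^ (δ / 8 * k) → (N₀ : ℝ) ≤ δ / 8 * k * Real.logb 2 n →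
      ∀ R : RandLearner n N₀ T r (Pt n → Bool),
      ∃ f : Pt n → Bool, IsDNF (2 ^ (k - 1) + 1) f ∧
        R.prob f (fun h => err f h ≤ 1 / 2 - (n : ℝ) ^ (-(δ / 8 * k))) ≤
          (n : ℝ) ^ (-(δ / 4 * k)) := by
  obtain ⟨m₁, hm₁⟩ := large 1 4 (by norm_num)
  obtain ⟨m₂, hm₂⟩ := dnf_bound δ hδ hδ2
  refine ⟨max m₁ m₂, fun m hm k r T N₀ hk1 hk hr hT hN R => ?_⟩
  have hm4 := (hm₁ m (le_trans (le_max_left _ _) hm)).1
  have hm0 : (0 : ℝ) < m := by linarith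
  obtain ⟨hkb, hb0, -, -⟩ := basic δ hδ hδ2 m hm4 k (by omega) hk
  have hb : 0 < m / k := by exact_mod_cast hb0
  have hkm : k ≤ m := by
    by_contra hcon
    rw [Nat.div_eq_of_lt (by omega)] at hb
    omega
  set ε : ℝ := (m : ℝ) ^ (-(δ / 8 * k)) with hε
  have hε0 : 0 < ε := by rw [hε]; positivity
  have hB1 : 4 * (⌊1 / (4 * ε ^ 2)⌋₊ : ℝ) * ε ^ 2 ≤ 1 := by
    have h1 : (⌊1 / (4 * ε ^ 2)⌋₊ : ℝ) ≤ 1 / (4 * ε ^ 2) := Nat.floor_le (by positivity)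
    rw [le_div_iff₀ (by positivity)] at h1
    linarith
  obtain ⟨f, h1, h2⟩ := hard_target m k r T N₀ hk1 hkm ε hε0 R
  exact ⟨f, h1, h2.trans (hm₂ m (le_trans (le_max_right _ _) hm) k r T N₀ _ hk1 hk hr hT hN hB1)⟩

theorem explicit (n k r T N₀ : ℕ) (hk1 : 1 ≤ k) (hkn : k ≤ n) (ε : ℝ) (hε0 : 0 < ε)
    (R : RandLearner n N₀ T r (Pt n → Bool)) :
    ∃ f : Pt n → Bool, IsDNF (2 ^ (k - 1) + 1) f ∧
      R.prob f (fun h => err f h ≤ 1 / 2 - ε) ≤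
        2 ^ N₀ * (1 / (4 * ε ^ 2) + T * (r : ℝ) ^ k) / ((n / k : ℕ) : ℝ) ^ k := by
  obtain ⟨f, h1, h2⟩ := hard_target n k r T N₀ hk1 hkn ε hε0 R
  refine ⟨f, h1, h2.trans ?_⟩
  push_cast
  have h3 : (⌊1 / (4 * ε ^ 2)⌋₊ : ℝ) ≤ 1 / (4 * ε ^ 2) := Nat.floor_le (by positivity)
  apply div_le_div_of_nonneg_right _ (by positivity)
  apply mul_le_mul_of_nonneg_left _ (by positivity)
  linarith

theorem result :
    -- (1) an explicit bound for the success probability on some DNF of size `2 ^ (k - 1) + 1`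
    (∀ n k r T N₀ : ℕ, 1 ≤ k → k ≤ n → ∀ ε : ℝ, 0 < ε →
      ∀ R : RandLearner n N₀ T r (Pt n → Bool),
      ∃ f : Pt n → Bool, IsDNF (2 ^ (k - 1) + 1) f ∧
        R.prob f (fun h => err f h ≤ 1 / 2 - ε) ≤
          2 ^ N₀ * (1 / (4 * ε ^ 2) + T * (r : ℝ) ^ k) / ((n / k : ℕ) : ℝ) ^ k) ∧
    -- (2) DNFs of size `n` need `n ^ (Ω(log n))` examples
    (∀ δ : ℝ, 0 < δ → δ ≤ 1 / 2 → ∃ n₀ : ℕ, ∀ n : ℕ, n₀ ≤ n → ∀ r T N₀ : ℕ,
      (r : ℝ) ≤ (n : ℝ) ^ (1 - δ) → (T : ℝ) ≤ (n : ℝ) ^ (δ / 8 * (Nat.log 2 n : ℕ)) →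
      (N₀ : ℝ) ≤ δ / 8 * (Nat.log 2 n : ℕ) * Real.logb 2 n →
      ∀ R : RandLearner n N₀ T r (Pt n → Bool),
      ∃ f : Pt n → Bool, IsDNF n f ∧
        R.prob f (fun h => err f h ≤ 1 / 2 - (n : ℝ) ^ (-(δ / 8 * (Nat.log 2 n : ℕ)))) ≤
          (n : ℝ) ^ (-(δ / 4 * (Nat.log 2 n : ℕ)))) := by
  refine ⟨explicit, ?_⟩
  intro δ hδ hδ2
  obtain ⟨m₁, hm₁⟩ := part_one δ hδ hδ2
  have h1 : ∀ᶠ n : ℕ in atTop, ((Nat.log 2 n : ℕ) : ℝ) ≤ (n : ℝ) ^ (δ / 4) := by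
    have h2 : (fun x : ℝ => Real.log x) =o[atTop] (fun x : ℝ => x ^ (δ / 4)) :=
      isLittleO_log_rpow_atTop (by positivity)
    have h3 := (h2.comp_tendsto tendsto_natCast_atTop_atTop).bound
      (show 0 < Real.log 2 from Real.log_pos (by norm_num))
    filter_upwards [h3, eventually_ge_atTop 1] with n hn h1n
    have hn0 : (0 : ℝ) < n := by exact_mod_cast h1n
    have hn1 : (1 : ℝ) ≤ n := by exact_mod_cast h1n
    have h5 : ((Nat.log 2 n : ℕ) : ℝ) * Real.log 2 ≤ Real.log n := by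
      have h6 : ((2 ^ Nat.log 2 n : ℕ) : ℝ) ≤ (n : ℝ) := by
        exact_mod_cast Nat.pow_log_le_self 2 (by omega)
      have h7 := Real.log_le_log (by positivity) h6
      push_cast at h7
      rw [Real.log_pow] at h7
      exact h7
    simp only [Function.comp] at hn
    rw [Real.norm_eq_abs, Real.norm_eq_abs, abs_of_nonneg (Real.log_nonneg hn1),
      abs_of_nonneg (by positivity)] at hn
    have hl2 : 0 < Real.log 2 := Real.log_pos (by norm_num)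
    have h8 : ((Nat.log 2 n : ℕ) : ℝ) * Real.log 2 ≤ (n : ℝ) ^ (δ / 4) * Real.log 2 := by
      calc _ ≤ _ := h5
        _ ≤ _ := hn
        _ = _ := mul_comm _ _
    exact le_of_mul_le_mul_right h8 hl2
  obtain ⟨m₂, hm₂⟩ := eventually_atTop.1 h1
  refine ⟨max (max m₁ m₂) 2, fun n hn r T N₀ hr hT hN R => ?_⟩
  have hn1 : m₁ ≤ n := le_trans (le_trans (le_max_left _ _) (le_max_left _ _)) hn
  have hn2 : m₂ ≤ n := le_trans (le_trans (le_max_right _ _) (le_max_left _ _)) hn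
  have hn3 : 2 ≤ n := le_trans (le_max_right _ _) hn
  have hk : 1 ≤ Nat.log 2 n := Nat.log_pos (by norm_num) hn3
  obtain ⟨f, hf1, hf2⟩ := hm₁ n hn1 (Nat.log 2 n) r T N₀ hk (hm₂ n hn2) hr hT hN R
  refine ⟨f, ?_, hf2⟩
  obtain ⟨F, hF1, hF2⟩ := hf1
  refine ⟨F, ?_, hF2⟩
  have h3 : 2 ^ Nat.log 2 n ≤ n := Nat.pow_log_le_self 2 (by omega)
  have h4 : 2 ^ Nat.log 2 n = 2 * 2 ^ (Nat.log 2 n - 1) := by
    rw [← pow_succ']
    congr 1
    omega
  have h5 : 1 ≤ 2 ^ (Nat.log 2 n - 1) := Nat.one_le_two_pow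
  omega

end Pool.Agent.Results.MP_cba12a_lc.FocusedLearners
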