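import Mathlib
import Pool.Agent.TH440.LD.Dnf

/-!
# Predictors of low degree do not weakly learn DNF formulas

Randomized predictors whose prediction is close to a real polynomial of degree `D` in all bits of
the `N` labelled examples and of the point to be predicted, or of degree `d` in the labels.
-/

set_option autoImplicit false

namespace Pool.Agent.Results.MP_cba12a_lc.LowDegreePredictors

open Finset Pool.Agent.TH440.LD

/-- No randomized predictor `L` from `N` examples, whose mean prediction `L.val` is approximated by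
a function `p` from the class `Cls`, learns the DNF formulas of size at most `s` (the terms and the
output gate are counted): if the root of the mean square of `p - L.val` is at most `η₀` for random
attributes and random labels, and the mean of `|p - L.val|` is at most `η` for random examples of
every DNF formula of size at most `s`, then for some DNF formula of size at most `s` the prediction
for a random point is wrong with probability at least `1 / 2 - (η + (1 + η₀) B) / 2`. -/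
def Fails (n N s : ℕ) (Cls : (Sample n N → (Fin n → Bool) → ℝ) → Prop) (B : ℝ) : Prop :=
  ∀ (L : Predictor n N) (p : Sample n N → (Fin n → Bool) → ℝ), Cls p →
    ∀ η₀ η : ℝ, 0 ≤ η₀ → nullMeanT (fun b x => (p b x - L.val b x) ^ 2) ≤ η₀ ^ 2 →
      (∀ r, r + 1 ≤ s → ∀ Φ : DNF r n, meanT Φ.eval (fun b x => |p b x - L.val b x|) ≤ η) →
      ∃ r, r + 1 ≤ s ∧ ∃ Φ : DNF r n, 1 / 2 - (η + (1 + η₀) * B) / 2 ≤ L.err Φ.eval

lemma Fails.mono {n N s : ℕ} {Cls : (Sample n N → (Fin n → Bool) → ℝ) → Prop} {B B' : ℝ}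
    (h : Fails n N s Cls B) (hB : B ≤ B') : Fails n N s Cls B' := by
  intro L p hp η₀ η hη₀ h0 h1
  obtain ⟨r, hr, Φ, hΦ⟩ := h L p hp η₀ η hη₀ h0 h1
  refine ⟨r, hr, Φ, le_trans ?_ hΦ⟩
  have h2 : (1 + η₀) * B ≤ (1 + η₀) * B' := mul_le_mul_of_nonneg_left hB (by linarith)
  linarith

/-- the main step -/
lemma fails_of {n N s k : ℕ} (hk : 1 ≤ k) (hkn : k ≤ n) (hs : 2 ^ (k - 1) + 1 ≤ s)
    {Cls : (Sample n N → (Fin n → Bool) → ℝ) → Prop} (J : Finset (Finset (Fin N)))
    (hJ : ∀ p, Cls p → ∀ T : Finset (Fin n), T.card = k → ∀ I, I ∉ J →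
      nullMeanT (fun b x => p b x * W T I b x) = 0) :
    Fails n N s Cls (√(J.card / n.choose k)) := by
  intro L p hp η₀ η hη₀ h0 h1
  have h2 : ∀ T : Finset (Fin n), T.card = k →
      meanT (par T) (fun b x => |p b x - L.val b x|) ≤ η := by
    intro T hT
    obtain ⟨Φ, hΦ⟩ := exists_dnf T hk hT
    have h3 := h1 _ hs Φ
    rwa [show Φ.eval = par T from funext hΦ] at h3
  obtain ⟨T, hT, hE⟩ := averageT hkn L p J (hJ p hp) hη₀ h0 h2
  obtain ⟨Φ, hΦ⟩ := exists_dnf T hk hT
  refine ⟨_, hs, Φ, ?_⟩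
  rwa [show Φ.eval = par T from funext hΦ]

/-- the number of sets of examples which matter, for polynomials of degree `D` in all bits -/
def bitsCount (N k D : ℕ) : ℕ :=
  (univ.filter fun I : Finset (Fin N) => I.card * (k + 1) + k ≤ D).card

/-- the number of sets of at most `d` examples -/
def labelsCount (N d : ℕ) : ℕ := (univ.filter fun I : Finset (Fin N) => I.card ≤ d).card

theorem bits {n N s k D : ℕ} (hk : 1 ≤ k) (hkn : k ≤ n) (hs : 2 ^ (k - 1) + 1 ≤ s) :
    Fails n N s (PolyInBitsT D) (√(bitsCount N k D / n.choose k)) := by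
  refine fails_of hk hkn hs (univ.filter fun I : Finset (Fin N) => I.card * (k + 1) + k ≤ D) ?_
  intro p hp T hT I hI
  refine van_bitsT hp T I ?_
  rw [hT]
  simpa using hI

theorem labels {n N s k d : ℕ} (hk : 1 ≤ k) (hkn : k ≤ n) (hs : 2 ^ (k - 1) + 1 ≤ s) :
    Fails n N s (PolyInLabelsT d) (√(labelsCount N d / n.choose k)) := by
  refine fails_of hk hkn hs (univ.filter fun I : Finset (Fin N) => I.card ≤ d) ?_
  intro p hp T hT I hI
  refine van_labelsT hp T I ?_
  simpa using hI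

lemma one_add_pow_le (N : ℕ) : (1 / ((N : ℝ) + 1) + 1) ^ N ≤ Real.exp 1 := by
  calc (1 / ((N : ℝ) + 1) + 1) ^ N ≤ (Real.exp (1 / ((N : ℝ) + 1))) ^ N := by
        refine pow_le_pow_left₀ (by positivity) ?_ N
        exact Real.add_one_le_exp _
    _ = Real.exp (N * (1 / ((N : ℝ) + 1))) := by rw [← Real.exp_nat_mul]
    _ ≤ Real.exp 1 := by
        refine Real.exp_le_exp.2 ?_
        rw [mul_one_div, div_le_one (by positivity)]
        linarith

lemma card_small {N : ℕ} {t : ℝ} (J : Finset (Finset (Fin N))) (hJ : ∀ I ∈ J, (I.card : ℝ) ≤ t) :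
    (J.card : ℝ) ≤ Real.exp (1 + t * Real.log (N + 1)) := by
  have hN : (0 : ℝ) < (N : ℝ) + 1 := by positivity
  have hlog : 0 ≤ Real.log ((N : ℝ) + 1) := Real.log_nonneg (by
    have : (0 : ℝ) ≤ N := by positivity
    linarith)
  obtain ⟨z, hz⟩ : ∃ z : ℝ, z = 1 / ((N : ℝ) + 1) := ⟨_, rfl⟩
  have hz0 : 0 < z := by rw [hz]; positivity
  have h1 : ∑ I : Finset (Fin N), z ^ I.card = (z + 1) ^ N := by
    have h2 := Finset.sum_pow_mul_eq_add_pow z 1 (univ : Finset (Fin N))
    simpa using h2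
  have h2 : ∀ I ∈ J, (1 : ℝ) ≤ Real.exp (t * Real.log (N + 1)) * z ^ I.card := by
    intro I hI
    have h3 : z ^ I.card = Real.exp (-(I.card * Real.log (N + 1))) := by
      rw [Real.exp_neg, Real.exp_nat_mul, Real.exp_log hN, hz, one_div, inv_pow]
    rw [h3, ← Real.exp_add]
    refine Real.one_le_exp ?_
    have h4 := mul_le_mul_of_nonneg_right (hJ I hI) hlog
    linarith
  calc (J.card : ℝ) = ∑ _I ∈ J, (1 : ℝ) := by simp
    _ ≤ ∑ I ∈ J, Real.exp (t * Real.log (N + 1)) * z ^ I.card := Finset.sum_le_sum h2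
    _ ≤ ∑ I : Finset (Fin N), Real.exp (t * Real.log (N + 1)) * z ^ I.card :=
        Finset.sum_le_sum_of_subset_of_nonneg (Finset.subset_univ _) fun I _ _ => by positivity
    _ = Real.exp (t * Real.log (N + 1)) * (z + 1) ^ N := by rw [← Finset.mul_sum, h1]
    _ ≤ Real.exp (t * Real.log (N + 1)) * Real.exp 1 := by
        refine mul_le_mul_of_nonneg_left ?_ (Real.exp_pos _).le
        rw [hz]
        exact one_add_pow_le N
    _ = _ := by rw [← Real.exp_add, add_comm]

lemma choose_lower {n k : ℕ} (hk : 1 ≤ k) (hkn : k ≤ n) :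
    (((n : ℝ) + 1 - k) / k) ^ k ≤ n.choose k := by
  have hk0 : (0 : ℝ) < k := by exact_mod_cast hk
  have h1 := Nat.pow_le_choose (α := ℝ) k n
  have h2 : (((n + 1 - k : ℕ) : ℝ)) = (n : ℝ) + 1 - k := by
    rw [Nat.cast_sub (by omega)]
    push_cast
    ring
  rw [h2] at h1
  have h3 : ((k.factorial : ℕ) : ℝ) ≤ (k : ℝ) ^ k := by exact_mod_cast Nat.factorial_le_pow k
  have hC : (0 : ℝ) ≤ n.choose k := by positivity
  rw [div_le_iff₀ (by exact_mod_cast Nat.factorial_pos k)] at h1
  rw [div_pow, div_le_iff₀ (by positivity)]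
  exact h1.trans (mul_le_mul_of_nonneg_left h3 hC)

/-- The final estimate. -/
lemma tail {α : ℝ} (hα : 0 < α) {n s : ℕ} (hn : 1 ≤ n) (hn1 : 2 / α ≤ Real.log n)
    (hn2 : 32 / α ≤ Real.log n) (hs : 2 ≤ s) (hsn : Real.logb 2 s ≤ (n : ℝ) ^ (1 - α)) {J E : ℝ} (hJ : J ≤ Real.exp (1 + E))
    (hE : E ≤ α / 16 * (Real.log s * Real.log n)) :
    1 ≤ Nat.log 2 s ∧ Nat.log 2 s ≤ n ∧ 2 ^ (Nat.log 2 s - 1) + 1 ≤ s ∧
      √(J / n.choose (Nat.log 2 s)) ≤ (n : ℝ) ^ (-(α / 16 * Real.log s)) := by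
  obtain ⟨k, hk⟩ : ∃ k, k = Nat.log 2 s := ⟨_, rfl⟩
  rw [← hk]
  have hk1 : 1 ≤ k := by
    rw [hk]
    exact Nat.log_pos (by norm_num) hs
  have hn0 : (0 : ℝ) < n := by exact_mod_cast hn
  have hnR : (1 : ℝ) ≤ n := by exact_mod_cast hn
  have hs0 : (0 : ℝ) < s := by exact_mod_cast (show 0 < s by omega)
  have hpow : 2 ^ k ≤ s := by
    rw [hk]
    exact Nat.pow_log_le_self 2 (by omega)
  have hpow2 : s < 2 ^ (k + 1) := by
    rw [hk]
    exact Nat.lt_pow_succ_log_self (by norm_num) s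
  have hs1 : 2 ^ (k - 1) + 1 ≤ s := by
    have h1 : 2 ^ k = 2 * 2 ^ (k - 1) := by
      rw [← pow_succ']
      congr 1
      omega
    have h2 : 1 ≤ 2 ^ (k - 1) := Nat.one_le_two_pow
    omega
  obtain ⟨l, hl⟩ : ∃ l, l = Real.log n := ⟨_, rfl⟩
  obtain ⟨σ, hσ⟩ : ∃ σ, σ = Real.log s := ⟨_, rfl⟩
  rw [← hl] at hn1 hn2 hE
  rw [← hσ] at hE
  have hl1 : 2 ≤ α * l := by
    rw [div_le_iff₀ hα] at hn1
    linarith
  have hl2 : 32 ≤ α * l := by
    rw [div_le_iff₀ hα] at hn2
    linarith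
  have hlog2 : Real.log 2 ≤ 1 := by
    have := Real.log_two_lt_d9
    linarith
  have hlog2' : 1 / 2 ≤ Real.log 2 := by
    have := Real.log_two_gt_d9
    linarith
  have hσ1 : 1 / 2 ≤ σ := by
    rw [hσ]
    exact hlog2'.trans (Real.log_le_log (by norm_num) (by exact_mod_cast hs))
  have hkσ : (k : ℝ) ≤ (n : ℝ) ^ (1 - α) := by
    refine le_trans ?_ hsn
    rw [Real.le_logb_iff_rpow_le (by norm_num) hs0, Real.rpow_natCast]
    exact_mod_cast hpow
  have hσk : σ ≤ 2 * k := by
    have h1 : σ ≤ (k + 1) * Real.log 2 := by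
      rw [hσ]
      have h2 : Real.log s ≤ Real.log ((2 : ℝ) ^ (k + 1)) :=
        Real.log_le_log hs0 (by exact_mod_cast hpow2.le)
      rw [Real.log_pow] at h2
      push_cast at h2
      exact h2
    have h3 : (1 : ℝ) ≤ k := by exact_mod_cast hk1
    nlinarith
  have hnα : (n : ℝ) ^ (1 - α) = n * Real.exp (-(α * l)) := by
    rw [Real.rpow_sub hn0, Real.rpow_one, Real.rpow_def_of_pos hn0, ← hl, div_eq_mul_inv,
      ← Real.exp_neg]
    congr 2
    ring
  have hexp : Real.exp (-(α * l)) ≤ 1 / 2 := by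
    have h1 : Real.exp (-(α * l)) ≤ Real.exp (-Real.log 2) := Real.exp_le_exp.2 (by linarith)
    rw [Real.exp_neg (Real.log 2), Real.exp_log (by norm_num)] at h1
    linarith
  have hk2 : (k : ℝ) ≤ n / 2 := by
    refine hkσ.trans ?_
    rw [hnα]
    calc (n : ℝ) * Real.exp (-(α * l)) ≤ n * (1 / 2) := mul_le_mul_of_nonneg_left hexp hn0.le
      _ = n / 2 := by ring
  have hkn : k ≤ n := by
    have h1 : (k : ℝ) ≤ n := by linarith
    exact_mod_cast h1
  refine ⟨hk1, hkn, hs1, ?_⟩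
  have hk0 : (0 : ℝ) < k := by exact_mod_cast hk1
  have hC0 : (0 : ℝ) < n.choose k := by exact_mod_cast Nat.choose_pos hkn
  have hC : Real.exp (k * (α * l - Real.log 2)) ≤ n.choose k := by
    refine le_trans ?_ (choose_lower hk1 hkn)
    rw [Real.exp_nat_mul]
    refine pow_le_pow_left₀ (Real.exp_pos _).le ?_ k
    rw [le_div_iff₀ hk0, Real.exp_sub, Real.exp_log (by norm_num)]
    calc Real.exp (α * l) / 2 * k ≤ Real.exp (α * l) / 2 * (n * Real.exp (-(α * l))) := by
          rw [← hnα]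
          exact mul_le_mul_of_nonneg_left hkσ (by positivity)
      _ = (Real.exp (α * l) * Real.exp (-(α * l))) * (n / 2) := by ring
      _ = n / 2 := by rw [← Real.exp_add, add_neg_cancel, Real.exp_zero, one_mul]
      _ ≤ _ := by linarith
  have hmain : J / n.choose k ≤ Real.exp (-(2 * (α / 16 * σ * l))) := by
    rw [div_le_iff₀ hC0]
    calc J ≤ Real.exp (1 + E) := hJ
      _ ≤ Real.exp (-(2 * (α / 16 * σ * l)) + k * (α * l - Real.log 2)) := by
          refine Real.exp_le_exp.2 ?_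
          have h1 : (k : ℝ) * (α * l / 2) ≤ k * (α * l - Real.log 2) :=
            mul_le_mul_of_nonneg_left (by linarith) hk0.le
          have h2 : σ / 2 * (α * l / 2) ≤ (k : ℝ) * (α * l / 2) :=
            mul_le_mul_of_nonneg_right (by linarith) (by linarith)
          have h3 : 1 ≤ α / 16 * (σ * l) := by nlinarith
          nlinarith
      _ = Real.exp (-(2 * (α / 16 * σ * l))) * Real.exp (k * (α * l - Real.log 2)) :=
          Real.exp_add _ _
      _ ≤ _ := mul_le_mul_of_nonneg_left hC (Real.exp_pos _).le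
  refine (Real.sqrt_le_sqrt hmain).trans ?_
  rw [Real.rpow_def_of_pos hn0, ← hl, ← hσ]
  refine le_of_eq ?_
  rw [show -(2 * (α / 16 * σ * l)) = (l * -(α / 16 * σ)) + (l * -(α / 16 * σ)) by ring,
    Real.exp_add]
  exact Real.sqrt_mul_self (Real.exp_pos _).le

/-- Predictors for `N` uniform examples of DNF formulas of size at most `s` in `n` variables.
Let `1 ≤ k ≤ n` and `2 ^ (k - 1) + 1 ≤ s`.
1. Predictors approximated by real polynomials of degree `D` in all bits of the labelled sample and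
of the point to be predicted fail, `B² = #{I ⊆ [N] : |I| (k + 1) + k ≤ D} / (n choose k)`.
2. Predictors approximated by real polynomials of degree `d` in the labels, the coefficients being
arbitrary functions of the attributes and of the point, fail, with
`B² = #{I ⊆ [N] : |I| ≤ d} / (n choose k)`.
3. Let `α > 0`. There are `δ > 0`, `n₀` such that for `n ≥ n₀`, `2 ≤ s ≤ 2 ^ (n ^ (1 - α))` and all
`N` both kinds of predictors fail with `B = n ^ (- δ log s)` if `D log (N + 1) ≤ δ (log s)² log n`,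
resp. `d log (N + 1) ≤ δ log s log n`. -/
theorem result :
    (∀ n N s k D : ℕ, 1 ≤ k → k ≤ n → 2 ^ (k - 1) + 1 ≤ s →
      Fails n N s (PolyInBitsT D) (√(bitsCount N k D / n.choose k))) ∧
    (∀ n N s k d : ℕ, 1 ≤ k → k ≤ n → 2 ^ (k - 1) + 1 ≤ s →
      Fails n N s (PolyInLabelsT d) (√(labelsCount N d / n.choose k))) ∧
    (∀ α : ℝ, 0 < α → ∃ δ : ℝ, 0 < δ ∧ ∃ n₀ : ℕ, ∀ n N s : ℕ, n₀ ≤ n → 2 ≤ s →
      Real.logb 2 s ≤ (n : ℝ) ^ (1 - α) →
      (∀ D : ℕ, D * Real.log (N + 1) ≤ δ * (Real.log s ^ 2 * Real.log n) →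
        Fails n N s (PolyInBitsT D) ((n : ℝ) ^ (-(δ * Real.log s)))) ∧
      (∀ d : ℕ, d * Real.log (N + 1) ≤ δ * (Real.log s * Real.log n) →
        Fails n N s (PolyInLabelsT d) ((n : ℝ) ^ (-(δ * Real.log s))))) := by
  refine ⟨fun n N s k D hk hkn hs => bits hk hkn hs, fun n N s k d hk hkn hs => labels hk hkn hs,
    ?_⟩
  intro α hα
  have hlogT : Filter.Tendsto (fun m : ℕ => Real.log m) Filter.atTop Filter.atTop :=
    Real.tendsto_log_atTop.comp tendsto_natCast_atTop_atTop
  obtain ⟨n₀, hn₀⟩ := Filter.eventually_atTop.1 ((hlogT.eventually_ge_atTop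
    (max (2 / α) (32 / α))).and (Filter.eventually_ge_atTop 1))
  refine ⟨α / 16, by positivity, n₀, fun n N s hn hs hsn => ?_⟩
  obtain ⟨h1, h2⟩ := hn₀ n hn
  have h1a := (le_max_left _ _).trans h1
  have h1b := (le_max_right _ _).trans h1
  have hl0 : 0 ≤ Real.log n := Real.log_nonneg (by exact_mod_cast h2)
  have hs0 : (0 : ℝ) < s := by exact_mod_cast (show 0 < s by omega)
  have hσ0 : 0 ≤ Real.log s := Real.log_nonneg (by exact_mod_cast (show 1 ≤ s by omega))
  constructor
  · intro D hD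
    obtain ⟨k, hk⟩ : ∃ k, k = Nat.log 2 s := ⟨_, rfl⟩
    have hσk : Real.log s ≤ (k : ℝ) + 1 := by
      have h3 : Real.log s ≤ Real.log ((2 : ℝ) ^ (k + 1)) := by
        refine Real.log_le_log hs0 ?_
        rw [hk]
        exact_mod_cast (Nat.lt_pow_succ_log_self (by norm_num) s).le
      rw [Real.log_pow] at h3
      push_cast at h3
      have h4 := Real.log_two_lt_d9
      have h5 : (0 : ℝ) ≤ k := by positivity
      nlinarith
    have hk1 : (0 : ℝ) < (k : ℝ) + 1 := by positivity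
    have hE : D / ((k : ℝ) + 1) * Real.log (N + 1) ≤ α / 16 * (Real.log s * Real.log n) := by
      rw [div_mul_eq_mul_div, div_le_iff₀ hk1]
      refine hD.trans ?_
      calc α / 16 * (Real.log s ^ 2 * Real.log n) =
            α / 16 * (Real.log s * Real.log n) * Real.log s := by ring
        _ ≤ _ := mul_le_mul_of_nonneg_left hσk (by positivity)
    have hJ : (bitsCount N k D : ℝ) ≤
        Real.exp (1 + D / ((k : ℝ) + 1) * Real.log (N + 1)) := by
      refine card_small _ fun I hI => ?_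
      rw [Finset.mem_filter] at hI
      rw [le_div_iff₀ hk1]
      have h3 : I.card * (k + 1) ≤ D := by omega
      exact_mod_cast h3
    obtain ⟨t1, t2, t3, t4⟩ := tail hα h2 h1a h1b hs hsn hJ hE
    rw [← hk] at t1 t2 t3 t4
    exact (bits t1 t2 t3).mono t4
  · intro d hd
    have hJ : (labelsCount N d : ℝ) ≤ Real.exp (1 + d * Real.log (N + 1)) := by
      refine card_small _ fun I hI => ?_
      rw [Finset.mem_filter] at hI
      exact_mod_cast hI.2
    obtain ⟨t1, t2, t3, t4⟩ := tail hα h2 h1a h1b hs hsn hJ hd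
    exact (labels t1 t2 t3).mono t4

end Pool.Agent.Results.MP_cba12a_lc.LowDegreePredictors
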